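import Pool.Agent.MP_1246c0_nt.H25.All

namespace Pool.Agent.Results.MP_1246c0_nt.DensityOneTwo

open Pool.Agent.MP_1246c0_nt Pool.Agent.MP_1246c0_nt.H55 Pool.Agent.MP_1246c0_nt.H12

/-- The real quadratic fields with bounded `2`-class numbers in the cyclotomic tower have
density one. -/
theorem result : ∀ ε : ℝ, 0 < ε → ∃ X₀ : ℕ, ∀ X : ℕ, X₀ ≤ X →
    (1 - ε) * (Set.ncard {D : ℕ | D ≤ X ∧ Fund D} : ℝ) ≤
      (Set.ncard {D : ℕ | D ≤ X ∧ Fund D ∧ Green2 (kD D)} : ℝ) :=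
  H25.All.aFN

end Pool.Agent.Results.MP_1246c0_nt.DensityOneTwo
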