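import Pool.Agent.MP_1246c0_nt.H55.Alg
import Pool.Agent.MP_1246c0_nt.H3.FIN
import Pool.Agent.MP_1246c0_nt.H5.ATT
import Pool.Agent.MP_1246c0_nt.H15.VOL
import Pool.Agent.MP_1246c0_nt.H16.Cusp
import Pool.Agent.MP_1246c0_nt.H44.LocDen
import Pool.Agent.MP_1246c0_nt.H52.SEL
import Pool.Agent.MP_1246c0_nt.H53.RED
import Pool.Agent.MP_1246c0_nt.H56.FD
import Pool.Agent.MP_1246c0_nt.H59.Lat
import Pool.Agent.MP_1246c0_nt.H59.Loc
import Pool.Agent.MP_1246c0_nt.H75.Loc3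
import Pool.Agent.MP_1246c0_nt.H76.QB

namespace Pool.Agent.Results.MP_1246c0_nt.FiveSixths

open Pool.Agent.MP_1246c0_nt Pool.Agent.MP_1246c0_nt.H55

/-- In each residue class modulo `3`, at least five sixths of the real quadratic fields have
bounded `3`-class numbers in the cyclotomic tower. -/
theorem result : ∀ c : ℕ, c < 3 → ∀ ε : ℝ, 0 < ε → ∃ X₀ : ℕ, ∀ X : ℕ, X₀ ≤ X →
    (5 / 6 - ε) * (Set.ncard {D : ℕ | D ≤ X ∧ Fund D ∧ D % 3 = c} : ℝ) ≤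
      (Set.ncard {D : ℕ | D ≤ X ∧ Fund D ∧ D % 3 = c ∧ Green (kD D)} : ℝ) := by
  classical
  intro c hc ε hε
  have h := H3.rowFIN (rowALG H76.rowQB (H5.rowATT H76.rowQB) (H59.rowLOC H76.rowQB)
    (H52.rowSEL H76.rowQB H16.rowPAD)) (H53.rowCNT H15.rowVOL H59.rowLAT H16.rowCUSP H53.rowRED)
    H75.rowLOC3 (H44.rowDEN H44.rowLOCP) H56.rowFD H75.rowEUL c hc ε hε
  obtain ⟨X₀, h⟩ := Filter.eventually_atTop.1 h
  refine ⟨X₀, fun X hX => ?_⟩
  have e : ∀ (P : ℕ → Prop) [DecidablePred P], Set.ncard {D : ℕ | D ≤ X ∧ P D} =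
      ((Finset.range (X + 1)).filter P).card := fun P _ => by
    rw [← Set.ncard_coe_finset]
    refine congrArg _ (Set.ext fun D => ?_)
    simp
  rw [e, e]
  exact h X hX

end Pool.Agent.Results.MP_1246c0_nt.FiveSixths
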